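import Pool.Agent.BEL.StmtsP

/-!
# Squad BEL (MP_be01ff_an), row ULT: ultracontractivity of the heat semigroup
-/

namespace Pool.Agent.BEL.H20

open Set Filter Topology MeasureTheory
open scoped InnerProductSpace ENNReal
open Pool.Agent.BE01

noncomputable section

section gen

variable {E : Type*} [NormedAddCommGroup E] [InnerProductSpace ℝ E]

theorem hs_sq (b : HilbertBasis ℕ ℝ E) (x : E) :
    HasSum (fun k => ⟪b k, x⟫_ℝ ^ 2) (‖x‖ ^ 2) := by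
  have h := b.hasSum_inner_mul_inner x x
  rw [real_inner_self_eq_norm_sq] at h
  have he : (fun k => ⟪b k, x⟫_ℝ ^ 2) = fun k => ⟪x, b k⟫_ℝ * ⟪b k, x⟫_ℝ := by
    funext k
    rw [real_inner_comm x (b k), sq]
  rw [he]
  exact h

theorem ex_coef (b : HilbertBasis ℕ ℝ E) (c : ℕ → ℝ) (hc : Summable (fun k => c k ^ 2)) :
    ∃ x : E, ∀ k, ⟪b k, x⟫_ℝ = c k := by
  have hm : Memℓp (fun k => c k) 2 := by
    refine memℓp_gen ?_
    simpa using hc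
  refine ⟨b.repr.symm ⟨c, hm⟩, fun k => ?_⟩
  rw [← b.repr_apply_apply, LinearIsometryEquiv.apply_symm_apply]

end gen

theorem mult_bd (x s : ℝ) (hx : 0 < x) (hs : 0 < s) :
    x * Real.exp (-(s * x ^ 2)) ≤ 1 + 1 / s := by
  have h1 : 1 + s * x ^ 2 ≤ Real.exp (s * x ^ 2) := by
    have := Real.add_one_le_exp (s * x ^ 2)
    linarith
  have h2 : 0 < Real.exp (s * x ^ 2) := Real.exp_pos _
  rw [Real.exp_neg, ← div_eq_mul_inv, div_le_iff₀ h2]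
  have h3 : x ≤ (1 + 1 / s) * (1 + s * x ^ 2) := by
    have h4 : (1 + 1 / s) * (1 + s * x ^ 2) = 1 + 1 / s + s * x ^ 2 + x ^ 2 := by
      field_simp
      ring
    rw [h4]
    have h5 : 0 < 1 / s := by positivity
    have h6 : 0 ≤ s * x ^ 2 := by positivity
    nlinarith [sq_nonneg (x - 1)]
  calc x ≤ (1 + 1 / s) * (1 + s * x ^ 2) := h3
    _ ≤ (1 + 1 / s) * Real.exp (s * x ^ 2) := by
        refine mul_le_mul_of_nonneg_left h1 ?_
        positivity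

theorem term_le (x s c : ℝ) :
    s * (x * Real.exp (-(s * x ^ 2)) * c) ^ 2 ≤ (Real.exp (-(s / 2 * x ^ 2)) * c) ^ 2 := by
  have h1 : s * x ^ 2 ≤ Real.exp (s * x ^ 2) := by
    have := Real.add_one_le_exp (s * x ^ 2)
    linarith
  have h2 : Real.exp (-(s / 2 * x ^ 2)) ^ 2 = Real.exp (s * x ^ 2) * Real.exp (-(s * x ^ 2)) ^ 2 := by
    rw [← Real.exp_nat_mul, ← Real.exp_nat_mul, ← Real.exp_add]
    congr 1
    push_cast
    ring
  have h3 : (Real.exp (-(s / 2 * x ^ 2)) * c) ^ 2 =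
      Real.exp (s * x ^ 2) * (Real.exp (-(s * x ^ 2)) ^ 2 * c ^ 2) := by
    rw [mul_pow, h2]
    ring
  rw [h3]
  have h4 : s * (x * Real.exp (-(s * x ^ 2)) * c) ^ 2 =
      s * x ^ 2 * (Real.exp (-(s * x ^ 2)) ^ 2 * c ^ 2) := by
    ring
  rw [h4]
  exact mul_le_mul_of_nonneg_right h1 (by positivity)

/-- The real variable part: the recursive inequality bounds `F`. -/
theorem rec_bound (F : ℝ → ℝ) (dd κ J t B : ℝ) (hd : 0 < dd) (hκ : 0 < κ) (hJ : 0 ≤ J)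
    (ht : 0 < t) (hF0 : ∀ s, 0 < s → 0 ≤ F s) (hFB : ∀ s, 0 < s → F s ≤ B)
    (hrec : ∀ s, 0 < s → s * (κ * F s ^ (1 + 2 / dd)) ≤ F (s / 2) * J) :
    t ^ (dd / 2) * F t ≤ (2 ^ (dd / 2) * J / κ) ^ (dd / 2) := by
  obtain ⟨M, hM⟩ : ∃ M, M = sSup ((fun s => s ^ (dd / 2) * F s) '' Ioc 0 t) := ⟨_, rfl⟩
  have hB : 0 ≤ B := (hF0 t ht).trans (hFB t ht)
  have hbdd : BddAbove ((fun s => s ^ (dd / 2) * F s) '' Ioc 0 t) := by
    refine ⟨t ^ (dd / 2) * B, ?_⟩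
    rintro _ ⟨s, hs, rfl⟩
    exact mul_le_mul (Real.rpow_le_rpow hs.1.le hs.2 (by positivity)) (hFB s hs.1) (hF0 s hs.1)
      (Real.rpow_nonneg ht.le _)
  have hle : ∀ s, 0 < s → s ≤ t → s ^ (dd / 2) * F s ≤ M := by
    intro s hs hst
    rw [hM]
    exact le_csSup hbdd ⟨s, ⟨hs, hst⟩, rfl⟩
  have hM0 : 0 ≤ M := le_trans (mul_nonneg (Real.rpow_nonneg ht.le _) (hF0 t ht)) (hle t ht le_rfl)
  obtain ⟨K, hK⟩ : ∃ K, K = 2 ^ (dd / 2) * J / κ := ⟨_, rfl⟩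
  have hK0 : 0 ≤ K := by
    rw [hK]
    positivity
  have hq : 0 < 1 + 2 / dd := by positivity
  have hstep : ∀ s, 0 < s → s ≤ t → (s ^ (dd / 2) * F s) ^ (1 + 2 / dd) ≤ K * M := by
    intro s hs hst
    have hr := hrec s hs
    have hhalf := hle (s / 2) (by positivity) (by linarith)
    rw [Real.mul_rpow (Real.rpow_nonneg hs.le _) (hF0 s hs), ← Real.rpow_mul hs.le]
    have he : dd / 2 * (1 + 2 / dd) = dd / 2 + 1 := by
      field_simp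
    rw [he, Real.rpow_add hs, Real.rpow_one]
    have h1 : s * F s ^ (1 + 2 / dd) ≤ F (s / 2) * J / κ := by
      rw [le_div_iff₀ hκ]
      calc s * F s ^ (1 + 2 / dd) * κ = s * (κ * F s ^ (1 + 2 / dd)) := by ring
        _ ≤ _ := hr
    have h2 : s ^ (dd / 2) = 2 ^ (dd / 2) * (s / 2) ^ (dd / 2) := by
      rw [← Real.mul_rpow (by norm_num) (by positivity)]
      congr 1
      ring
    calc s ^ (dd / 2) * s * F s ^ (1 + 2 / dd) = s ^ (dd / 2) * (s * F s ^ (1 + 2 / dd)) := by ring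
      _ ≤ s ^ (dd / 2) * (F (s / 2) * J / κ) :=
          mul_le_mul_of_nonneg_left h1 (Real.rpow_nonneg hs.le _)
      _ = K * ((s / 2) ^ (dd / 2) * F (s / 2)) := by
          rw [h2, hK]
          ring
      _ ≤ K * M := mul_le_mul_of_nonneg_left hhalf hK0
  have hMle : M ^ (1 + 2 / dd) ≤ K * M := by
    have h1 : M ≤ (K * M) ^ (1 + 2 / dd)⁻¹ := by
      nth_rewrite 1 [hM]
      refine csSup_le ⟨_, ⟨t, ⟨ht, le_rfl⟩, rfl⟩⟩ ?_
      rintro _ ⟨s, hs, rfl⟩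
      rw [Real.le_rpow_inv_iff_of_pos (mul_nonneg (Real.rpow_nonneg hs.1.le _) (hF0 s hs.1))
        (mul_nonneg hK0 hM0) hq]
      exact hstep s hs.1 hs.2
    rwa [Real.le_rpow_inv_iff_of_pos hM0 (mul_nonneg hK0 hM0) hq] at h1
  have hfin : M ≤ K ^ (dd / 2) := by
    rcases hM0.eq_or_lt with h0 | h0
    · rw [← h0]
      exact Real.rpow_nonneg hK0 _
    · rw [Real.rpow_add h0, Real.rpow_one, mul_comm] at hMle
      have h1 : M ^ (2 / dd) ≤ K := le_of_mul_le_mul_right hMle h0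
      have h2 : dd / 2 = (2 / dd)⁻¹ := by
        rw [inv_div]
      rw [h2, Real.le_rpow_inv_iff_of_pos hM0 hK0 (by positivity)]
      exact h1
  rw [← hK]
  exact (hle t ht le_rfl).trans hfin

theorem ult (hL : LsmStmt) (hN : NshStmt) : UltStmt := by
  intro d Ω ι b e om hd hΩ hι hS
  obtain ⟨κ, hκ, hnash⟩ := hN d Ω ι hd hΩ hι
  have hdd : (0 : ℝ) < d := by exact_mod_cast hd
  obtain ⟨C0, hC0⟩ : ∃ C0 : ℝ, C0 = (2 ^ ((d : ℝ) / 2) / κ) ^ ((d : ℝ) / 2) := ⟨_, rfl⟩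
  have hC0p : 0 < C0 := by
    rw [hC0]
    positivity
  refine ⟨Real.sqrt C0, Real.sqrt_pos.mpr hC0p, fun t f u ht hu => ?_⟩
  obtain ⟨c, hc⟩ : ∃ c : ℕ → ℝ, c = fun k => ⟪b k, f⟫_ℝ := ⟨_, rfl⟩
  have hcs : Summable (fun k => c k ^ 2) := by
    rw [hc]
    exact (hs_sq b f).summable
  -- the functions `G s`
  have hex : ∀ s : ℝ, ∃ G : VV Ω, 0 < s → ∀ k,
      ⟪e k, G⟫_ℝ = om k * Real.exp (-(s * om k ^ 2)) * c k := by
    intro s
    by_cases hs : 0 < s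
    · obtain ⟨G, hG⟩ := ex_coef e (fun k => om k * Real.exp (-(s * om k ^ 2)) * c k) (by
        refine Summable.of_nonneg_of_le (fun k => sq_nonneg _) (fun k => ?_)
          (hcs.mul_left ((1 + 1 / s) ^ 2))
        rw [mul_pow]
        refine mul_le_mul_of_nonneg_right ?_ (sq_nonneg _)
        exact pow_le_pow_left₀ (mul_nonneg (hS.pos k).le (Real.exp_pos _).le)
          (mult_bd (om k) s (hS.pos k) hs) 2)
      exact ⟨G, fun _ => hG⟩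
    · exact ⟨0, fun h => absurd h hs⟩
  choose G hG using hex
  have hcoef : ∀ s, 0 < s → ∀ k, ⟪b k, ι (G s)⟫_ℝ = Real.exp (-(s * om k ^ 2)) * c k := by
    intro s hs k
    rw [hS.rel k (G s), hG s hs k]
    have := (hS.pos k).ne'
    field_simp
  have hheat : ∀ s, 0 < s → Heat b om s f (ι (G s)) := by
    intro s hs k
    rw [hcoef s hs k, hc]
  -- norms
  have hF : ∀ s, 0 < s →
      HasSum (fun k => (Real.exp (-(s * om k ^ 2)) * c k) ^ 2) (‖ι (G s)‖ ^ 2) := by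
    intro s hs
    have h := hs_sq b (ι (G s))
    have he : (fun k => ⟪b k, ι (G s)⟫_ℝ ^ 2) =
        fun k => (Real.exp (-(s * om k ^ 2)) * c k) ^ 2 := by
      funext k
      rw [hcoef s hs k]
    rwa [he] at h
  have hGn : ∀ s, 0 < s →
      HasSum (fun k => (om k * Real.exp (-(s * om k ^ 2)) * c k) ^ 2) (‖G s‖ ^ 2) := by
    intro s hs
    have h := hs_sq e (G s)
    have he : (fun k => ⟪e k, G s⟫_ℝ ^ 2) =
        fun k => (om k * Real.exp (-(s * om k ^ 2)) * c k) ^ 2 := by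
      funext k
      rw [hG s hs k]
    rwa [he] at h
  have hFB : ∀ s, 0 < s → ‖ι (G s)‖ ^ 2 ≤ ‖f‖ ^ 2 := by
    intro s hs
    have h := hs_sq b f
    refine hasSum_le (fun k => ?_) (hF s hs) h
    rw [mul_pow]
    have h1 : Real.exp (-(s * om k ^ 2)) ≤ 1 := by
      rw [Real.exp_le_one_iff]
      have : 0 ≤ s * om k ^ 2 := by positivity
      linarith
    have h2 : Real.exp (-(s * om k ^ 2)) ^ 2 ≤ 1 := pow_le_one₀ (Real.exp_pos _).le h1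
    have h3 : c k = ⟪b k, f⟫_ℝ := by rw [hc]
    rw [h3]
    calc Real.exp (-(s * om k ^ 2)) ^ 2 * ⟪b k, f⟫_ℝ ^ 2 ≤ 1 * ⟪b k, f⟫_ℝ ^ 2 :=
          mul_le_mul_of_nonneg_right h2 (sq_nonneg _)
      _ = ⟪b k, f⟫_ℝ ^ 2 := one_mul _
  have hhalf : ∀ s, 0 < s → s * ‖G s‖ ^ 2 ≤ ‖ι (G (s / 2))‖ ^ 2 := by
    intro s hs
    exact hasSum_le (fun k => term_le (om k) s (c k)) ((hGn s hs).mul_left s)
      (hF (s / 2) (by positivity))
  obtain ⟨I, hI⟩ : ∃ I : ℝ, I = ∫ x, |f x| ∂(mu Ω) := ⟨_, rfl⟩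
  have hI0 : 0 ≤ I := by
    rw [hI]
    exact integral_nonneg (fun x => abs_nonneg _)
  have hL1 : ∀ s, 0 < s → ∫ x, |ι (G s) x| ∂(mu Ω) ≤ I := by
    intro s hs
    rw [hI]
    exact hL d Ω ι b e om hd hΩ hι hS s f (ι (G s)) hs.le (hheat s hs)
  have hrec : ∀ s, 0 < s → s * (κ * (‖ι (G s)‖ ^ 2) ^ (1 + 2 / (d : ℝ))) ≤
      ‖ι (G (s / 2))‖ ^ 2 * I ^ (4 / (d : ℝ)) := by
    intro s hs
    have h1 := hnash (G s)
    have h2 : (‖ι (G s)‖ ^ 2) ^ (1 + 2 / (d : ℝ)) = ‖ι (G s)‖ ^ (2 + 4 / (d : ℝ)) := by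
      rw [← Real.rpow_natCast, ← Real.rpow_mul (norm_nonneg _)]
      congr 1
      push_cast
      ring
    rw [h2]
    have h3 : (∫ x, |ι (G s) x| ∂(mu Ω)) ^ (4 / (d : ℝ)) ≤ I ^ (4 / (d : ℝ)) :=
      Real.rpow_le_rpow (integral_nonneg (fun x => abs_nonneg _)) (hL1 s hs) (by positivity)
    calc s * (κ * ‖ι (G s)‖ ^ (2 + 4 / (d : ℝ)))
        ≤ s * (‖G s‖ ^ 2 * (∫ x, |ι (G s) x| ∂(mu Ω)) ^ (4 / (d : ℝ))) :=
          mul_le_mul_of_nonneg_left h1 hs.le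
      _ ≤ s * (‖G s‖ ^ 2 * I ^ (4 / (d : ℝ))) := by
          refine mul_le_mul_of_nonneg_left ?_ hs.le
          exact mul_le_mul_of_nonneg_left h3 (sq_nonneg _)
      _ = (s * ‖G s‖ ^ 2) * I ^ (4 / (d : ℝ)) := by ring
      _ ≤ ‖ι (G (s / 2))‖ ^ 2 * I ^ (4 / (d : ℝ)) :=
          mul_le_mul_of_nonneg_right (hhalf s hs) (Real.rpow_nonneg hI0 _)
  have hmain := rec_bound (fun s => ‖ι (G s)‖ ^ 2) (d : ℝ) κ (I ^ (4 / (d : ℝ))) t (‖f‖ ^ 2) hdd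
    hκ (Real.rpow_nonneg hI0 _) ht (fun s _ => sq_nonneg _) hFB hrec
  have hK : (2 ^ ((d : ℝ) / 2) * I ^ (4 / (d : ℝ)) / κ) ^ ((d : ℝ) / 2) = C0 * I ^ 2 := by
    have h1 : 2 ^ ((d : ℝ) / 2) * I ^ (4 / (d : ℝ)) / κ =
        (2 ^ ((d : ℝ) / 2) / κ) * I ^ (4 / (d : ℝ)) := by ring
    rw [h1, Real.mul_rpow (by positivity) (Real.rpow_nonneg hI0 _), ← hC0,
      ← Real.rpow_mul hI0]
    have h2 : 4 / (d : ℝ) * ((d : ℝ) / 2) = ((2 : ℕ) : ℝ) := by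
      field_simp
      norm_num
    rw [h2, Real.rpow_natCast]
  rw [hK] at hmain
  -- `u = ι (G t)`
  have hun : ‖u‖ ^ 2 = ‖ι (G t)‖ ^ 2 := by
    have h := hs_sq b u
    have he : (fun k => ⟪b k, u⟫_ℝ ^ 2) = fun k => (Real.exp (-(t * om k ^ 2)) * c k) ^ 2 := by
      funext k
      rw [hu k, hc]
    rw [he] at h
    exact h.unique (hF t ht)
  have h5 : t ^ ((d : ℝ) / 2) * ‖u‖ ^ 2 ≤ C0 * I ^ 2 := by
    rw [hun]
    exact hmain
  rw [← hI]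
  refine abs_le_of_sq_le_sq' ?_ ?_ |>.2
  · have h6 : (Real.sqrt C0 * t ^ (-((d : ℝ) / 4)) * I) ^ 2 = C0 * I ^ 2 / t ^ ((d : ℝ) / 2) := by
      rw [mul_pow, mul_pow, Real.sq_sqrt hC0p.le, ← Real.rpow_natCast (t ^ (-((d : ℝ) / 4))) 2,
        ← Real.rpow_mul ht.le]
      have h7 : -((d : ℝ) / 4) * ((2 : ℕ) : ℝ) = -((d : ℝ) / 2) := by
        push_cast
        ring
      rw [h7, Real.rpow_neg ht.le]
      ring
    rw [h6, le_div_iff₀ (Real.rpow_pos_of_pos ht _), mul_comm]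
    exact h5
  · positivity

end

end Pool.Agent.BEL.H20
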